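import Mathlib
import Pool.Agent.H647Z.LogFormsDefs
import Pool.Agent.H647Z.LogFormsMain

set_option autoImplicit false

namespace Pool.Agent.Results.MP_f76cdc_ag.AQ2Counterexample

open Pool.Agent.H647Z.LogForms

/-- Over every algebraically closed field of characteristic `3` there is a space `L_{15,2}`
(`m = 14`, `n = 2`), although `p^(n-1) (p-1) = 6` does not divide `m + 1 = 15`. -/
theorem result (k : Type) [Field k] [IsAlgClosed k] [Algebra (ZMod 3) k] :
    (∃ V : Submodule (ZMod 3) (RatFunc k), IsSpaceL 3 14 2 V) ∧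
      ¬ (3 ^ (2 - 1) * (3 - 1) ∣ 14 + 1) :=
  ⟨exists_space, by decide⟩

end Pool.Agent.Results.MP_f76cdc_ag.AQ2Counterexample
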